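import Mathlib

/-!
# Counting tapes with a good block (project KEY, MP_675993_lc, block D1)
-/

set_option autoImplicit false

namespace Pool.Agent.CKP

/-- number of the strings of length `m` -/
theorem d1_card (m : ℕ) : Nat.card {y : List Bool // y.length = m} = 2 ^ m := by
  have h : Nat.card (List.Vector Bool m) = 2 ^ m := by
    rw [Nat.card_eq_fintype_card, card_vector, Fintype.card_bool]
  exact h

theorem d1_finite (m : ℕ) : Finite {y : List Bool // y.length = m} :=
  (List.finite_length_eq Bool m).to_subtype

theorem d1_finite' (m : ℕ) (P : List Bool → Prop) : Finite {y : List Bool // y.length = m ∧ P y} :=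
  ((List.finite_length_eq Bool m).subset fun _ h => h.1).to_subtype

/-- a set of strings of length `m` and its complement -/
theorem d1_compl (m : ℕ) (P : List Bool → Prop) :
    Nat.card {y : List Bool // y.length = m ∧ P y} +
      Nat.card {y : List Bool // y.length = m ∧ ¬ P y} = 2 ^ m := by
  classical
  have h1 : {y : List Bool | y.length = m ∧ P y} ∪ {y : List Bool | y.length = m ∧ ¬ P y} =
      {y : List Bool | y.length = m} := by
    ext y
    constructor
    · rintro (h | h)
      · exact h.1
      · exact h.1
    · intro h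
      by_cases hy : P y
      · exact Or.inl ⟨h, hy⟩
      · exact Or.inr ⟨h, hy⟩
  have h2 : Disjoint {y : List Bool | y.length = m ∧ P y} {y : List Bool | y.length = m ∧ ¬ P y} :=
    Set.disjoint_left.2 fun y h h' => h'.2 h.2
  have hf := List.finite_length_eq Bool m
  have h3 := Set.ncard_union_eq h2 (hf.subset fun _ h => h.1) (hf.subset fun _ h => h.1)
  rw [h1] at h3
  have h4 : ({y : List Bool | y.length = m}).ncard = 2 ^ m := by
    rw [← d1_card m]
    rfl
  rw [h4] at h3
  exact h3.symm

/-- the tapes without a good block -/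
theorem d1_bad (m : ℕ) (G : List Bool → Prop) (t : ℕ) :
    Nat.card {y : List Bool // y.length = t * m ∧ ¬ ∃ i < t, G ((y.drop (i * m)).take m)} =
      Nat.card {y : List Bool // y.length = m ∧ ¬ G y} ^ t := by
  induction t with
  | zero =>
    rw [pow_zero]
    have : ∀ y : List Bool, (y.length = 0 * m ∧ ¬ ∃ i < 0, G ((y.drop (i * m)).take m)) ↔
        y = [] := by
      intro y
      constructor
      · intro h
        exact List.length_eq_zero_iff.1 (by rw [h.1, Nat.zero_mul])
      · rintro rfl
        exact ⟨by simp, by rintro ⟨i, hi, -⟩; exact absurd hi (Nat.not_lt_zero i)⟩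
    rw [Nat.card_congr (Equiv.subtypeEquivRight this)]
    simp
  | succ t ih =>
    rw [pow_succ', ← ih, ← Nat.card_prod]
    refine Nat.card_congr
      { toFun := fun y => (⟨y.1.take m, ?_, ?_⟩, ⟨y.1.drop m, ?_, ?_⟩)
        invFun := fun p => ⟨p.1.1 ++ p.2.1, ?_, ?_⟩
        left_inv := ?_
        right_inv := ?_ }
    · have h := y.2.1
      rw [List.length_take, h]
      exact min_eq_left (by rw [Nat.succ_mul]; omega)
    · intro h
      refine y.2.2 ⟨0, Nat.succ_pos t, ?_⟩
      rw [Nat.zero_mul, List.drop_zero]
      exact h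
    · have h := y.2.1
      rw [List.length_drop, h, Nat.succ_mul]
      omega
    · rintro ⟨i, hi, h⟩
      refine y.2.2 ⟨i + 1, by omega, ?_⟩
      rw [List.drop_drop] at h
      rwa [Nat.succ_mul, Nat.add_comm (i * m) m]
    · rw [List.length_append, p.1.2.1, p.2.2.1, Nat.succ_mul]
      omega
    · rintro ⟨i, hi, h⟩
      cases i with
      | zero =>
        rw [Nat.zero_mul, List.drop_zero, List.take_append_of_le_length (by rw [p.1.2.1]),
          List.take_of_length_le (by rw [p.1.2.1])] at h
        exact p.1.2.2 h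
      | succ i =>
        refine p.2.2.2 ⟨i, by omega, ?_⟩
        have hd : (p.1.1 ++ p.2.1).drop m = p.2.1 := by
          rw [List.drop_append_of_le_length (by rw [p.1.2.1]),
            List.drop_of_length_le (by rw [p.1.2.1]), List.nil_append]
        rw [Nat.succ_mul, Nat.add_comm (i * m) m, ← List.drop_drop, hd] at h
        exact h
    · intro y
      exact Subtype.ext (List.take_append_drop m y.1)
    · intro p
      refine Prod.ext (Subtype.ext ?_) (Subtype.ext ?_)
      · show (p.1.1 ++ p.2.1).take m = p.1.1
        rw [List.take_append_of_le_length (by rw [p.1.2.1]),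
          List.take_of_length_le (by rw [p.1.2.1])]
      · show (p.1.1 ++ p.2.1).drop m = p.2.1
        rw [List.drop_append_of_le_length (by rw [p.1.2.1]),
          List.drop_of_length_le (by rw [p.1.2.1]), List.nil_append]

/-- `(1 - 1 / p) ^ (2 p) ≤ 1 / 3` -/
theorem d1_num {N p b g t : ℕ} (hN : 0 < N) (h1 : g + b = N) (h2 : N ≤ p * g) (ht : 2 * p ≤ t) :
    3 * b ^ t ≤ N ^ t := by
  have hp : 0 < p := by
    rcases Nat.eq_zero_or_pos p with h | h
    · rw [h, Nat.zero_mul] at h2
      omega
    · exact h
  have hNr : (0 : ℝ) < N := by exact_mod_cast hN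
  have hpr : (0 : ℝ) < p := by exact_mod_cast hp
  have hb : (b : ℝ) / N ≤ Real.exp (-(1 / (p : ℝ))) := by
    have h3 : (b : ℝ) / N = 1 - (g : ℝ) / N := by
      have h4 : (g : ℝ) + b = N := by exact_mod_cast h1
      field_simp
      linarith
    have h5 : 1 / (p : ℝ) ≤ (g : ℝ) / N := by
      rw [div_le_div_iff₀ hpr hNr]
      have h6 : (N : ℝ) ≤ p * g := by exact_mod_cast h2
      linarith
    have h7 := Real.add_one_le_exp (-(1 / (p : ℝ)))
    linarith
  have h8 : ((b : ℝ) / N) ^ t ≤ 1 / 3 := by
    calc ((b : ℝ) / N) ^ t ≤ Real.exp (-(1 / (p : ℝ))) ^ t :=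
          pow_le_pow_left₀ (by positivity) hb t
      _ = Real.exp (t * (-(1 / (p : ℝ)))) := (Real.exp_nat_mul _ _).symm
      _ ≤ Real.exp (-2) := by
          apply Real.exp_le_exp.2
          have h9 : (2 : ℝ) * p ≤ t := by exact_mod_cast ht
          have h10 : (2 : ℝ) ≤ t * (1 / (p : ℝ)) := by
            rw [mul_one_div, le_div_iff₀ hpr]
            exact h9
          linarith
      _ ≤ 1 / 3 := by
          rw [Real.exp_neg, one_div]
          apply inv_anti₀ (by norm_num)
          have := Real.add_one_le_exp (2 : ℝ)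
          linarith
  rw [div_pow, div_le_iff₀ (by positivity)] at h8
  have h11 : (3 : ℝ) * b ^ t ≤ N ^ t := by linarith
  exact_mod_cast h11

/-- Let `G` be a set of good blocks of length `m`, at least a `1 / p` fraction of all blocks. At
least two thirds of the tapes of `t ≥ 2 p` blocks contain a good block. -/
theorem d1_count (m t p : ℕ) (G : List Bool → Prop)
    (hG : 2 ^ m ≤ p * Nat.card {y : List Bool // y.length = m ∧ G y}) (ht : 2 * p ≤ t) :
    2 * 2 ^ (t * m) ≤ 3 * Nat.card {y : List Bool // y.length = t * m ∧
      ∃ i < t, G ((y.drop (i * m)).take m)} := by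
  have h1 := d1_compl m G
  have h2 := d1_compl (t * m) (fun y => ∃ i < t, G ((y.drop (i * m)).take m))
  have h3 := d1_bad m G t
  have h4 := d1_num (Nat.two_pow_pos m) h1 hG ht
  rw [← pow_mul, Nat.mul_comm m t] at h4
  rw [h3] at h2
  omega

end Pool.Agent.CKP
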